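import Mathlib
import Pool.Agent.TH28.FL.Dat

set_option autoImplicit false

universe u v

namespace Pool.Agent.TH611.FL

open Module Pool.Agent.TH28.FL

variable {K : Type u} {L : Type v} [Field K] [LieRing L] [LieAlgebra K L]

theorem lie_dg {w x y : L} {i j : ℤ} (hx : x ∈ dg K w i) (hy : y ∈ dg K w j) :
    ⁅x, y⁆ ∈ dg K w (i + j) := by
  rw [mem_dg] at *
  rw [leibniz_lie, hx, hy, smul_lie, lie_smul, ← add_smul]
  push_cast
  rfl

theorem dg_eq (w : L) (j : ℤ) :
    dg K w j = Module.End.eigenspace (LieAlgebra.ad K L w) (j : K) := by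
  ext x
  rw [mem_dg, Module.End.mem_eigenspace_iff]
  rfl

theorem kf_inv (x y z : L) : killingForm K L ⁅x, y⁆ z = killingForm K L x ⁅y, z⁆ :=
  LieModule.traceForm_apply_lie_apply K L L x y z

theorem kf_inv' (x y z : L) : killingForm K L ⁅x, y⁆ z = - killingForm K L y ⁅x, z⁆ :=
  LieModule.traceForm_apply_lie_apply' K L L x y z

theorem kf_comm (x y : L) : killingForm K L x y = killingForm K L y x :=
  LieModule.traceForm_comm K L L x y

theorem kil_dg [CharZero K] {w x y : L} {i j : ℤ} (hx : x ∈ dg K w i) (hy : y ∈ dg K w j)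
    (h : i + j ≠ 0) : killingForm K L x y = 0 := by
  rw [mem_dg] at *
  have h1 := kf_inv' (K := K) w x y
  rw [hx, hy, map_smul, map_smul, LinearMap.smul_apply] at h1
  have h2 : ((i + j : ℤ) : K) * killingForm K L x y = 0 := by
    push_cast
    simp only [smul_eq_mul] at h1
    linear_combination h1
  rcases mul_eq_zero.1 h2 with h3 | h3
  · exact absurd (Int.cast_eq_zero.1 h3) h
  · exact h3

/-- an endomorphism of a line acts by a scalar -/
theorem line_smul {V : Submodule K L} [FiniteDimensional K L] (h1 : finrank K V ≤ 1) {x y : L}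
    (hx : x ∈ V) (hx0 : x ≠ 0) (hy : y ∈ V) : ∃ c : K, y = c • x := by
  have hpos : 0 < finrank K V := by
    rw [Module.finrank_pos_iff_exists_ne_zero]
    exact ⟨⟨x, hx⟩, fun h => hx0 (congrArg Subtype.val h)⟩
  have hone : finrank K V = 1 := by omega
  obtain ⟨c, hc⟩ := (finrank_eq_one_iff_of_nonzero' (⟨x, hx⟩ : V)
    (fun h => hx0 (congrArg Subtype.val h))).1 hone ⟨y, hy⟩
  exact ⟨c, (congrArg Subtype.val hc).symm⟩

theorem dg_fin [CharZero K] [FiniteDimensional K L] (w : L) : {j : ℤ | dg K w j ≠ ⊥}.Finite := by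
  have h := (LieAlgebra.ad K L w : Module.End K L).finite_hasEigenvalue
  have h2 : {j : ℤ | dg K w j ≠ ⊥} =
      (fun j : ℤ => (j : K)) ⁻¹' {μ | (LieAlgebra.ad K L w : Module.End K L).HasEigenvalue μ} := by
    ext j
    simp only [Set.mem_ofPred_eq, Set.mem_preimage]
    rw [dg_eq]
    rfl
  rw [h2]
  exact h.preimage Int.cast_injective.injOn

/-- elements of nonzero degree are ad-nilpotent -/
theorem nilp_dg [CharZero K] [FiniteDimensional K L] {w : L} (top : ⨆ j : ℤ, dg K w j = ⊤)
    {c : ℤ} (hc : c ≠ 0) {e : L} (he : e ∈ dg K w c) : IsNilpotent (LieAlgebra.ad K L e) := by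
  rw [Module.End.isNilpotent_iff_of_finite]
  have hpow : ∀ (n : ℕ) (j : ℤ) (x : L), x ∈ dg K w j →
      ((LieAlgebra.ad K L e) ^ n) x ∈ dg K w (j + n * c) := by
    intro n
    induction n with
    | zero => intro j x hx; simpa using hx
    | succ n ih =>
      intro j x hx
      rw [pow_succ', Module.End.mul_apply]
      have h1 := lie_dg he (ih j x hx)
      have h2 : c + (j + n * c) = j + ((n + 1 : ℕ) : ℤ) * c := by push_cast; ring
      rw [h2] at h1
      exact h1
  have hfin := dg_fin (K := K) w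
  intro x
  have hx : x ∈ ⨆ j : ℤ, dg K w j := by rw [top]; trivial
  induction hx using Submodule.iSup_induction' with
  | mem j x hx =>
    by_contra hcon
    push Not at hcon
    have hinf : (Set.range fun n : ℕ => j + n * c).Infinite := by
      apply Set.infinite_range_of_injective
      intro a b hab
      simp only at hab
      have : (a : ℤ) * c = b * c := by linarith
      exact_mod_cast mul_right_cancel₀ hc this
    apply hinf
    apply hfin.subset
    rintro _ ⟨n, rfl⟩
    simp only [Set.mem_ofPred_eq]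
    intro hbot
    have h1 := hpow n j x hx
    rw [hbot] at h1
    exact hcon n ((Submodule.mem_bot K).1 h1)
  | zero => exact ⟨0, by simp⟩
  | add x y _ _ hx hy =>
    obtain ⟨a, ha⟩ := hx
    obtain ⟨b, hb⟩ := hy
    refine ⟨a + b, ?_⟩
    rw [map_add]
    have h1 : ((LieAlgebra.ad K L e) ^ (a + b)) x = 0 := by
      rw [add_comm, pow_add, Module.End.mul_apply, ha, map_zero]
    have h2 : ((LieAlgebra.ad K L e) ^ (a + b)) y = 0 := by
      rw [pow_add, Module.End.mul_apply, hb, map_zero]
    rw [h1, h2, add_zero]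

/-- if `[a, b]` commutes with `a` and `b`, then its nonzero eigenspaces vanish -/
theorem eig_bot [CharZero K] [FiniteDimensional K L] {a b z : L} {α : K}
    (h1 : ⁅⁅a, b⁆, a⁆ = 0) (h2 : ⁅⁅a, b⁆, b⁆ = 0) (hz : ⁅⁅a, b⁆, z⁆ = α • z) (hα : α ≠ 0) :
    z = 0 := by
  set E := Module.End.eigenspace (LieAlgebra.ad K L ⁅a, b⁆ : Module.End K L) α with hE
  have memE : ∀ x, x ∈ E ↔ ⁅⁅a, b⁆, x⁆ = α • x := by
    intro x
    rw [hE, Module.End.mem_eigenspace_iff]; rfl
  have hA : ∀ x ∈ E, (LieAlgebra.ad K L a) x ∈ E := by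
    intro x hx
    rw [memE] at *
    rw [LieAlgebra.ad_apply, leibniz_lie, h1, zero_lie, zero_add, hx, lie_smul]
  have hB : ∀ x ∈ E, (LieAlgebra.ad K L b) x ∈ E := by
    intro x hx
    rw [memE] at *
    rw [LieAlgebra.ad_apply, leibniz_lie, h2, zero_lie, zero_add, hx, lie_smul]
  let A : Module.End K E := (LieAlgebra.ad K L a).restrict hA
  let B : Module.End K E := (LieAlgebra.ad K L b).restrict hB
  have hAB : A * B - B * A = α • (1 : Module.End K E) := by
    ext x
    have hx := (memE x).1 x.2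
    have : ((A * B - B * A) x : L) = ⁅a, ⁅b, (x : L)⁆⁆ - ⁅b, ⁅a, (x : L)⁆⁆ := rfl
    rw [this, ← lie_lie, hx]
    rfl
  have htr : LinearMap.trace K E (A * B - B * A) = 0 := by
    rw [map_sub, LinearMap.trace_mul_comm, sub_self]
  rw [hAB, map_smul, LinearMap.trace_one, smul_eq_mul] at htr
  have hfr : finrank K E = 0 := by
    rcases mul_eq_zero.1 htr with h | h
    · exact absurd h hα
    · exact_mod_cast h
  have hbot : E = ⊥ := Submodule.finrank_eq_zero.1 hfr
  have hzE : z ∈ E := (memE z).2 hz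
  rw [hbot] at hzE
  exact (Submodule.mem_bot K).1 hzE

end Pool.Agent.TH611.FL
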