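import Mathlib
import Pool.Agent.TH611.FL.Base

set_option autoImplicit false

universe u v

namespace Pool.Agent.TH611.FL

open Module Pool.Agent.TH28.FL

variable {K : Type u} {L : Type v} [Field K] [LieRing L] [LieAlgebra K L]

theorem nil_pow [FiniteDimensional K L] {A : Module.End K L} (hA : IsNilpotent A) {n : ℕ}
    (hn : finrank K L ≤ n) : A ^ n = 0 := by
  have h1 : LinearMap.charpoly A = Polynomial.X ^ finrank K L := by
    rw [LinearMap.charpoly_eq_X_pow_iff]
    intro m
    obtain ⟨k, hk⟩ := hA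
    exact ⟨k, by rw [hk]; rfl⟩
  have h2 := LinearMap.aeval_self_charpoly A
  rw [h1] at h2
  simp only [map_pow, Polynomial.aeval_X] at h2
  exact pow_eq_zero_of_le hn h2

theorem expA_eq_sum [FiniteDimensional K L] {a x : L} (ha : IsNilpotent (LieAlgebra.ad K L a))
    {k : ℕ} (hk : ((LieAlgebra.ad K L a) ^ k) x = 0) :
    expA K a x = ∑ j ∈ Finset.range k, ((j.factorial : K)⁻¹) • ((LieAlgebra.ad K L a) ^ j) x := by
  have hvan : ∀ j, k ≤ j → ((LieAlgebra.ad K L a) ^ j) x = 0 := by
    intro j hj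
    obtain ⟨i, rfl⟩ := Nat.exists_eq_add_of_le hj
    rw [add_comm, pow_add, Module.End.mul_apply, hk, map_zero]
  have hvan2 : ∀ j, finrank K L + 1 ≤ j → ((LieAlgebra.ad K L a) ^ j) x = 0 := by
    intro j hj
    rw [nil_pow ha (by omega : finrank K L ≤ j)]
    rfl
  unfold expA
  rw [LinearMap.sum_apply]
  simp only [LinearMap.smul_apply]
  rcases le_total k (finrank K L + 1) with h | h
  · symm
    apply Finset.sum_subset (Finset.range_mono h)
    intro j _ hj
    rw [hvan j (by simpa using hj), smul_zero]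
  · apply Finset.sum_subset (Finset.range_mono h)
    intro j _ hj
    rw [hvan2 j (by simpa using hj), smul_zero]

theorem expA_fix [FiniteDimensional K L] {a x : L} (ha : IsNilpotent (LieAlgebra.ad K L a))
    (hx : ⁅a, x⁆ = 0) : expA K a x = x := by
  rw [expA_eq_sum ha (k := 1) (by simpa using hx)]
  simp

theorem expA_mem [FiniteDimensional K L] {a : L} {V : Submodule K L}
    (hV : ∀ x ∈ V, ⁅a, x⁆ ∈ V) : ∀ x ∈ V, expA K a x ∈ V := by
  intro x hx
  unfold expA
  rw [LinearMap.sum_apply]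
  apply Submodule.sum_mem
  intro j hj
  clear hj
  rw [LinearMap.smul_apply]
  apply Submodule.smul_mem
  induction j with
  | zero => simpa using hx
  | succ n ih =>
    rw [pow_succ', Module.End.mul_apply]
    exact hV _ ih

theorem expA_two [FiniteDimensional K L] {a x : L} (ha : IsNilpotent (LieAlgebra.ad K L a))
    (hx : ⁅a, ⁅a, x⁆⁆ = 0) : expA K a x = x + ⁅a, x⁆ := by
  rw [expA_eq_sum ha (k := 2) (by simpa [pow_succ] using hx)]
  simp [Finset.sum_range_succ]

theorem expA_three [FiniteDimensional K L] {a x : L} (ha : IsNilpotent (LieAlgebra.ad K L a))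
    (hx : ⁅a, ⁅a, ⁅a, x⁆⁆⁆ = 0) : expA K a x = x + ⁅a, x⁆ + (2 : K)⁻¹ • ⁅a, ⁅a, x⁆⁆ := by
  rw [expA_eq_sum ha (k := 3) (by simpa [pow_succ] using hx)]
  simp [Finset.sum_range_succ, pow_succ, Nat.factorial]

/-- the exponential of a nilpotent `ad a` is an automorphism -/
theorem expA_equiv [CharZero K] [FiniteDimensional K L] {a : L}
    (ha : IsNilpotent (LieAlgebra.ad K L a)) : ∃ ψ : L ≃ₗ⁅K⁆ L, ∀ x, ψ x = expA K a x := by
  let _ : Algebra ℚ K := DivisionRing.toRatAlgebra
  let _ : Module ℚ L := Module.compHom L (algebraMap ℚ K)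
  have hsm : ∀ (q : ℚ) (x : L), q • x = (algebraMap ℚ K q) • x := fun q x => rfl
  let _ : LieAlgebra ℚ L :=
    { lie_smul := by
        intro q x y
        rw [hsm, hsm, lie_smul] }
  have hD : IsNilpotent (LieDerivation.ad K L a).toLinearMap := by
    have : (LieDerivation.ad K L a).toLinearMap = LieAlgebra.ad K L a :=
      LieDerivation.coe_ad_apply_eq_ad_apply a
    rw [this]; exact ha
  refine ⟨LieDerivation.exp (LieDerivation.ad K L a) hD, ?_⟩
  intro x
  rw [LieDerivation.exp_map_apply]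
  have h1 : (LieDerivation.ad K L a).toLinearMap = LieAlgebra.ad K L a :=
      LieDerivation.coe_ad_apply_eq_ad_apply a
  rw [h1]
  have h2 : (LieAlgebra.ad K L a) ^ (finrank K L + 1) = 0 := nil_pow ha (Nat.le_succ _)
  rw [IsNilpotent.exp_eq_sum h2]
  unfold expA
  rw [LinearMap.sum_apply, LinearMap.sum_apply]
  refine Finset.sum_congr rfl fun j _ => ?_
  rw [LinearMap.smul_apply, LinearMap.smul_apply, hsm]
  congr 1
  simp

end Pool.Agent.TH611.FL
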